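import Mathlib
import Pool.Agent.H827R3.NikA

/-!
# A Borel filter which is not `F_σδ` and whose algebra has the Nikodym property

The set `ℕ` is partitioned into blocks `J_{a,b,i}` of size `2^(a+b+i)`. The ideal consists of the
sets `A` whose relative density on `J_{a,b,i}` tends to `0` as `i → ∞`, for all `a, b`, and such
that for each `ε > 0`, for almost all `a` and almost all `b`, the relative densities on all
`J_{a,b,i}` are at most `ε`.
-/

namespace Pool.Agent.Results.MP_07734d_lc.BeyondFsigmadelta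

open Filter Topology

/-- The subset of `ℕ` with the characteristic function `x`. -/
def toSet (x : ℕ → Bool) : Set ℕ := {n | x n = true}

/-- A family of subsets of `ℕ` is Borel (as a subset of the Cantor space). -/
def IsBorelFamily (F : Set (Set ℕ)) : Prop :=
  @MeasurableSet (ℕ → Bool) (borel (ℕ → Bool)) {x | toSet x ∈ F}

/-- A family of subsets of `ℕ` is `F_σδ`: a countable intersection of countable unions of closed
sets. -/
def IsFsigmadelta (F : Set (Set ℕ)) : Prop :=
  ∃ C : ℕ → ℕ → Set (ℕ → Bool), (∀ i j, IsClosed (C i j)) ∧ {x | toSet x ∈ F} = ⋂ i, ⋃ j, C i j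

/-- The filter is free: it contains all cofinite sets and it is proper (so that it contains no
finite set). -/
def IsFree (F : Filter ℕ) : Prop := F ≤ Filter.cofinite ∧ F.NeBot

/-- The algebra `A_F`: the sets `A` such that `A` or its complement is in `F`. -/
def alg (F : Filter ℕ) : Set (Set ℕ) := {A | A ∈ F ∨ Aᶜ ∈ F}

/-- The variation of `μ` on the algebra `𝒜` is at most `K`. -/
def VarLE (𝒜 : Set (Set ℕ)) (μ : Set ℕ → ℝ) (K : ℝ) : Prop :=
  ∀ s : Finset (Set ℕ), (∀ A ∈ s, A ∈ 𝒜) → (∀ A ∈ s, ∀ B ∈ s, A ≠ B → Disjoint A B) →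
    ∑ A ∈ s, |μ A| ≤ K

/-- `μ` is a measure on the algebra `𝒜`: finitely additive and of bounded variation. (The values
outside of `𝒜` are irrelevant.) -/
structure IsMeasureOn (𝒜 : Set (Set ℕ)) (μ : Set ℕ → ℝ) : Prop where
  add : ∀ A ∈ 𝒜, ∀ B ∈ 𝒜, Disjoint A B → μ (A ∪ B) = μ A + μ B
  bdd : ∃ K, VarLE 𝒜 μ K

/-- The Nikodym property of an algebra of sets. -/
def NikodymProperty (𝒜 : Set (Set ℕ)) : Prop :=
  ∀ μ : ℕ → Set ℕ → ℝ, (∀ n, IsMeasureOn 𝒜 (μ n)) → (∀ A ∈ 𝒜, ∃ K, ∀ n, |μ n A| ≤ K) →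
    ∃ K, ∀ n, VarLE 𝒜 (μ n) K

/-! ### Generalities -/

theorem VarLE.abs_le {𝒜 : Set (Set ℕ)} {μ : Set ℕ → ℝ} {K : ℝ} (h : VarLE 𝒜 μ K) {A : Set ℕ}
    (hA : A ∈ 𝒜) : |μ A| ≤ K := by
  have := h {A} (by simpa using hA) (by
    intro B hB C hC hBC
    rw [Finset.mem_singleton] at hB hC
    exact absurd (hB.trans hC.symm) hBC)
  simpa using this

theorem add_finset {𝒜 : Set (Set ℕ)} (hempty : ∅ ∈ 𝒜) (hunion : ∀ A ∈ 𝒜, ∀ B ∈ 𝒜, A ∪ B ∈ 𝒜)
    {μ : Set ℕ → ℝ} (hμ : ∀ A ∈ 𝒜, ∀ B ∈ 𝒜, Disjoint A B → μ (A ∪ B) = μ A + μ B)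
    {ι : Type*} (s : Finset ι) (f : ι → Set ℕ) (hf : ∀ i ∈ s, f i ∈ 𝒜)
    (hd : ∀ i ∈ s, ∀ j ∈ s, i ≠ j → Disjoint (f i) (f j)) :
    (⋃ i ∈ s, f i) ∈ 𝒜 ∧ μ (⋃ i ∈ s, f i) = ∑ i ∈ s, μ (f i) := by
  classical
  induction s using Finset.induction_on with
  | empty =>
    have h0 : μ ∅ = 0 := by
      have := hμ ∅ hempty ∅ hempty (by simp)
      simp at this
      exact this
    simpa [h0] using hempty
  | insert a s ha ih =>
    obtain ⟨h1, h2⟩ := ih (fun i hi => hf i (Finset.mem_insert_of_mem hi))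
      (fun i hi j hj => hd i (Finset.mem_insert_of_mem hi) j (Finset.mem_insert_of_mem hj))
    rw [Finset.set_biUnion_insert, Finset.sum_insert ha, ← h2]
    refine ⟨hunion _ (hf a (Finset.mem_insert_self _ _)) _ h1, hμ _ (hf a (Finset.mem_insert_self _ _)) _ h1 ?_⟩
    rw [Set.disjoint_iUnion₂_right]
    intro i hi
    exact hd a (Finset.mem_insert_self _ _) i (Finset.mem_insert_of_mem hi)
      (fun h => ha (h ▸ hi))

theorem varLE_of_bound {𝒜 : Set (Set ℕ)} (hempty : ∅ ∈ 𝒜) (hunion : ∀ A ∈ 𝒜, ∀ B ∈ 𝒜, A ∪ B ∈ 𝒜)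
    {μ : Set ℕ → ℝ} (hμ : ∀ A ∈ 𝒜, ∀ B ∈ 𝒜, Disjoint A B → μ (A ∪ B) = μ A + μ B) {K : ℝ}
    (hK : ∀ A ∈ 𝒜, |μ A| ≤ K) : VarLE 𝒜 μ (2 * K) := by
  classical
  intro s hs hd
  have key : ∀ t : Finset (Set ℕ), t ⊆ s → |∑ A ∈ t, μ A| ≤ K := by
    intro t ht
    obtain ⟨h1, h2⟩ := add_finset hempty hunion hμ t id (fun A hA => hs A (ht hA))
      (fun A hA B hB => hd A (ht hA) B (ht hB))
    have := hK _ h1
    rw [h2] at this
    exact this
  rw [← Finset.sum_filter_add_sum_filter_not s (fun A => 0 ≤ μ A)]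
  have h1 : ∑ A ∈ s with 0 ≤ μ A, |μ A| ≤ K := by
    rw [Finset.sum_congr rfl (g := μ) (fun A hA => abs_of_nonneg (Finset.mem_filter.1 hA).2)]
    exact (le_abs_self _).trans (key _ (Finset.filter_subset _ _))
  have h2 : ∑ A ∈ s with ¬ 0 ≤ μ A, |μ A| ≤ K := by
    rw [Finset.sum_congr rfl (g := fun A => - μ A)
      (fun A hA => abs_of_nonpos (le_of_not_ge (Finset.mem_filter.1 hA).2)), Finset.sum_neg_distrib]
    exact (neg_le_abs _).trans (key _ (Finset.filter_subset _ _))
  linarith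

theorem empty_mem_alg (F : Filter ℕ) : ∅ ∈ alg F := Or.inr (by simp)

theorem union_mem_alg (F : Filter ℕ) : ∀ A ∈ alg F, ∀ B ∈ alg F, A ∪ B ∈ alg F := by
  rintro A (hA | hA) B (hB | hB)
  · exact Or.inl (mem_of_superset hA Set.subset_union_left)
  · exact Or.inl (mem_of_superset hA Set.subset_union_left)
  · exact Or.inl (mem_of_superset hB Set.subset_union_right)
  · right
    rw [Set.compl_union]
    exact inter_mem hA hB

/-! ### The blocks -/

/-- the exponent of the size of a block -/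
def ex (p : ℕ × ℕ × ℕ) : ℕ := p.1 + p.2.1 + p.2.2

/-- the points, sorted in blocks -/
abbrev T : Type := (p : ℕ × ℕ × ℕ) × Fin (2 ^ ex p)

instance : Infinite T := by
  refine Infinite.of_injective (fun p : ℕ × ℕ × ℕ => (⟨p, ⟨0, by positivity⟩⟩ : T)) ?_
  intro p q h
  exact congrArg Sigma.fst h

/-- an enumeration of the points -/
noncomputable def E : ℕ ≃ T := Classical.choice (nonempty_equiv_of_countable)

open Classical in
/-- number of points of `A` in a block -/
noncomputable def cnt (A : Set ℕ) (p : ℕ × ℕ × ℕ) : ℕ :=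
  (Finset.univ.filter (fun j : Fin (2 ^ ex p) => E.symm ⟨p, j⟩ ∈ A)).card

/-- density of `A` in a block -/
noncomputable def dens (A : Set ℕ) (p : ℕ × ℕ × ℕ) : ℝ := (cnt A p : ℝ) / 2 ^ ex p

theorem dens_nonneg (A : Set ℕ) (p : ℕ × ℕ × ℕ) : 0 ≤ dens A p := by
  unfold dens
  positivity

theorem dens_mono {A B : Set ℕ} (h : A ⊆ B) (p : ℕ × ℕ × ℕ) : dens A p ≤ dens B p := by
  classical
  unfold dens cnt
  gcongr

theorem dens_union (A B : Set ℕ) (p : ℕ × ℕ × ℕ) : dens (A ∪ B) p ≤ dens A p + dens B p := by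
  classical
  unfold dens
  rw [← add_div]
  gcongr
  have : cnt (A ∪ B) p ≤ cnt A p + cnt B p := by
    unfold cnt
    refine le_trans ?_ (Finset.card_union_le _ _)
    refine Finset.card_le_card ?_
    intro j hj
    simp only [Finset.mem_filter, Finset.mem_univ, true_and, Set.mem_union, Finset.mem_union] at hj ⊢
    exact hj
  exact_mod_cast this

theorem dens_univ (p : ℕ × ℕ × ℕ) : dens Set.univ p = 1 := by
  classical
  unfold dens cnt
  simp

theorem dens_pos_iff (A : Set ℕ) (p : ℕ × ℕ × ℕ) :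
    dens A p ≠ 0 ↔ ∃ j, E.symm ⟨p, j⟩ ∈ A := by
  classical
  unfold dens cnt
  rw [div_ne_zero_iff]
  constructor
  · rintro ⟨h, _⟩
    rw [Nat.cast_ne_zero, Finset.card_ne_zero] at h
    obtain ⟨j, hj⟩ := h
    exact ⟨j, (Finset.mem_filter.1 hj).2⟩
  · rintro ⟨j, hj⟩
    refine ⟨?_, by positivity⟩
    rw [Nat.cast_ne_zero, Finset.card_ne_zero]
    exact ⟨j, Finset.mem_filter.2 ⟨Finset.mem_univ _, hj⟩⟩

theorem dens_one {A : Set ℕ} {p : ℕ × ℕ × ℕ} (h : ∀ j, E.symm ⟨p, j⟩ ∈ A) : dens A p = 1 := by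
  classical
  unfold dens cnt
  rw [Finset.filter_true_of_mem (fun j _ => h j)]
  simp

theorem dens_iUnion_le (B : ℕ → Set ℕ) (h : ∀ k p, dens (B k) p ≤ (1 / 2) ^ k) (K : ℕ)
    (p : ℕ × ℕ × ℕ) :
    dens (⋃ k, B k) p ≤ ∑ k ∈ Finset.range K, dens (B k) p + 2 * (1 / 2) ^ K := by
  classical
  set N := max (ex p + 1) K with hN
  have h1 : cnt (⋃ k, B k) p ≤ ∑ k ∈ Finset.range N, cnt (B k) p := by
    unfold cnt
    refine le_trans (Finset.card_le_card ?_) Finset.card_biUnion_le
    intro j hj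
    simp only [Finset.mem_filter, Finset.mem_univ, true_and, Set.mem_iUnion, Finset.mem_biUnion,
      Finset.mem_range] at hj ⊢
    obtain ⟨k, hk⟩ := hj
    refine ⟨k, ?_, hk⟩
    have h2 : (1 : ℝ) / 2 ^ ex p ≤ dens (B k) p := by
      unfold dens
      gcongr
      have : 0 < cnt (B k) p := by
        unfold cnt
        exact Finset.card_pos.2 ⟨j, Finset.mem_filter.2 ⟨Finset.mem_univ _, hk⟩⟩
      exact_mod_cast this
    have h3 := h2.trans (h k p)
    by_contra hlt
    push Not at hlt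
    have h4 : ex p < k := by omega
    have h5 : (1 / 2 : ℝ) ^ k < (1 / 2) ^ ex p := pow_lt_pow_right_of_lt_one₀ (by norm_num) (by norm_num) h4
    rw [one_div_pow (2 : ℝ) (ex p)] at h5
    linarith
  have h2 : dens (⋃ k, B k) p ≤ ∑ k ∈ Finset.range N, dens (B k) p := by
    unfold dens
    rw [← Finset.sum_div]
    gcongr
    exact_mod_cast h1
  refine h2.trans ?_
  rw [← Finset.sum_range_add_sum_Ico _ (le_max_right (ex p + 1) K)]
  gcongr
  calc ∑ k ∈ Finset.Ico K N, dens (B k) p ≤ ∑ k ∈ Finset.Ico K N, (1 / 2 : ℝ) ^ k :=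
        Finset.sum_le_sum fun k _ => h k p
    _ = (1 / 2) ^ K * ∑ k ∈ Finset.range (N - K), (1 / 2 : ℝ) ^ k := by
        rw [Finset.sum_Ico_eq_sum_range, Finset.mul_sum]
        exact Finset.sum_congr rfl fun k _ => by rw [pow_add]
    _ ≤ (1 / 2) ^ K * 2 := by
        gcongr
        exact sum_geometric_two_le _
    _ = 2 * (1 / 2) ^ K := mul_comm _ _

/-! ### The ideal -/

/-- The ideal. -/
def Idl : Set (Set ℕ) :=
  {A | (∀ a b, Tendsto (fun i => dens A (a, b, i)) atTop (𝓝 0)) ∧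
    ∀ ε : ℝ, 0 < ε → ∀ᶠ a in atTop, ∀ᶠ b in atTop, ∀ i, dens A (a, b, i) ≤ ε}

theorem Idl_mono {A B : Set ℕ} (hB : B ∈ Idl) (h : A ⊆ B) : A ∈ Idl := by
  refine ⟨fun a b => ?_, fun ε hε => ?_⟩
  · exact squeeze_zero (fun i => dens_nonneg _ _) (fun i => dens_mono h _) (hB.1 a b)
  · filter_upwards [hB.2 ε hε] with a ha
    filter_upwards [ha] with b hb i
    exact (dens_mono h _).trans (hb i)

theorem Idl_union {A B : Set ℕ} (hA : A ∈ Idl) (hB : B ∈ Idl) : A ∪ B ∈ Idl := by
  refine ⟨fun a b => ?_, fun ε hε => ?_⟩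
  · have := (hA.1 a b).add (hB.1 a b)
    rw [add_zero] at this
    exact squeeze_zero (fun i => dens_nonneg _ _) (fun i => dens_union _ _ _) this
  · filter_upwards [hA.2 (ε / 2) (by positivity), hB.2 (ε / 2) (by positivity)] with a ha hb
    filter_upwards [ha, hb] with b ha hb i
    have := dens_union A B (a, b, i)
    linarith [ha i, hb i]

theorem Idl_finite {A : Set ℕ} (hA : A.Finite) : A ∈ Idl := by
  have hfin : {p | dens A p ≠ 0}.Finite := by
    refine (hA.image (fun n => (E n).1)).subset ?_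
    intro p hp
    obtain ⟨j, hj⟩ := (dens_pos_iff A p).1 hp
    exact ⟨_, hj, by simp⟩
  obtain ⟨N, hN⟩ : ∃ N, ∀ p, dens A p ≠ 0 → p.1 < N ∧ p.2.1 < N ∧ p.2.2 < N := by
    obtain ⟨M, hM⟩ := (hfin.image (fun p => p.1 + p.2.1 + p.2.2)).bddAbove
    refine ⟨M + 1, fun p hp => ?_⟩
    have : p.1 + p.2.1 + p.2.2 ≤ M := hM ⟨p, hp, rfl⟩
    omega
  refine ⟨fun a b => ?_, fun ε hε => ?_⟩
  · refine tendsto_const_nhds.congr' ?_
    filter_upwards [eventually_ge_atTop N] with i hi
    by_contra h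
    exact absurd (hN (a, b, i) (Ne.symm h)).2.2 (not_lt.2 hi)
  · filter_upwards [eventually_ge_atTop N] with a ha
    filter_upwards with b i
    have : dens A (a, b, i) = 0 := by
      by_contra h
      exact absurd (hN (a, b, i) h).1 (not_lt.2 ha)
    rw [this]
    exact hε.le

theorem univ_not_mem : Set.univ ∉ Idl := by
  intro h
  have h1 := h.1 0 0
  simp only [dens_univ] at h1
  have := tendsto_nhds_unique h1 tendsto_const_nhds
  norm_num at this

/-- The filter. -/
def Flt : Filter ℕ where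
  sets := {A | Aᶜ ∈ Idl}
  univ_sets := by
    change (Set.univ : Set ℕ)ᶜ ∈ Idl
    rw [Set.compl_univ]
    exact Idl_finite Set.finite_empty
  sets_of_superset := fun hA h => Idl_mono hA (Set.compl_subset_compl.2 h)
  inter_sets := fun hA hB => by
    change (_ ∩ _)ᶜ ∈ Idl
    rw [Set.compl_inter]
    exact Idl_union hA hB

theorem mem_Flt {A : Set ℕ} : A ∈ Flt ↔ Aᶜ ∈ Idl := Iff.rfl

theorem free : IsFree Flt := by
  refine ⟨fun A hA => ?_, ⟨fun h => ?_⟩⟩
  · rw [mem_Flt]
    exact Idl_finite (mem_cofinite.1 hA)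
  · have : (∅ : Set ℕ) ∈ Flt := by rw [h]; trivial
    rw [mem_Flt, Set.compl_empty] at this
    exact univ_not_mem this

theorem Idl_subset {A : Set ℕ} (hA : A ∈ Idl) : A ∈ alg Flt := by
  right
  rw [mem_Flt, compl_compl]
  exact hA

/-- countable unions of small members of the ideal -/
theorem Idl_iUnion {B : ℕ → Set ℕ} (hB : ∀ k, B k ∈ Idl) (h : ∀ k p, dens (B k) p ≤ (1 / 2) ^ k) :
    (⋃ k, B k) ∈ Idl := by
  have hsmall : ∀ ε : ℝ, 0 < ε → ∃ K : ℕ, 2 * (1 / 2 : ℝ) ^ K ≤ ε := by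
    intro ε hε
    obtain ⟨K, hK⟩ := exists_pow_lt_of_lt_one (show (0 : ℝ) < ε / 2 by positivity)
      (show (1 / 2 : ℝ) < 1 by norm_num)
    exact ⟨K, by linarith⟩
  refine ⟨fun a b => ?_, fun ε hε => ?_⟩
  · rw [Metric.tendsto_atTop]
    intro ε hε
    obtain ⟨K, hK⟩ := hsmall (ε / 2) (by positivity)
    have h1 : Tendsto (fun i => ∑ k ∈ Finset.range K, dens (B k) (a, b, i)) atTop (𝓝 0) := by
      have := tendsto_finsetSum (Finset.range K) (fun k _ => (hB k).1 a b)
      simpa using this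
    obtain ⟨N, hN⟩ := (Metric.tendsto_atTop.1 h1) (ε / 2) (by positivity)
    refine ⟨N, fun i hi => ?_⟩
    have h2 := hN i hi
    have h3 := dens_iUnion_le B h K (a, b, i)
    rw [Real.dist_eq, sub_zero] at h2 ⊢
    rw [abs_of_nonneg (dens_nonneg _ _)]
    have := le_abs_self (∑ k ∈ Finset.range K, dens (B k) (a, b, i))
    linarith
  · obtain ⟨K, hK⟩ := hsmall (ε / 2) (by positivity)
    have h1 : ∀ᶠ a in atTop, ∀ k ∈ Finset.range K, ∀ᶠ b in atTop, ∀ i,
        dens (B k) (a, b, i) ≤ ε / (2 * (K + 1)) := by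
      rw [Filter.eventually_all_finset]
      intro k _
      exact (hB k).2 _ (by positivity)
    filter_upwards [h1] with a ha
    have h2 : ∀ᶠ b in atTop, ∀ k ∈ Finset.range K, ∀ i,
        dens (B k) (a, b, i) ≤ ε / (2 * (K + 1)) := by
      rw [Filter.eventually_all_finset]
      exact ha
    filter_upwards [h2] with b hb i
    have h3 := dens_iUnion_le B h K (a, b, i)
    have h4 : ∑ k ∈ Finset.range K, dens (B k) (a, b, i) ≤ K * (ε / (2 * (K + 1))) := by
      refine (Finset.sum_le_sum fun k hk => hb k hk i).trans ?_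
      simp
    have h5 : K * (ε / (2 * ((K : ℝ) + 1))) ≤ ε / 2 := by
      rw [mul_div_assoc', div_le_div_iff₀ (by positivity) (by norm_num)]
      nlinarith
    linarith

/-! ### Pieces -/

/-- points in the small blocks -/
def small (k : ℕ) : Set ℕ := {n | ex (E n).1 < k}

theorem small_finite (k : ℕ) : (small k).Finite := by
  have h1 : {t : T | ex t.1 < k}.Finite := by
    have h2 : {p : ℕ × ℕ × ℕ | ex p < k}.Finite := by
      refine ((Set.finite_Iio k).prod ((Set.finite_Iio k).prod (Set.finite_Iio k))).subset ?_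
      intro p hp
      have hp' : p.1 + p.2.1 + p.2.2 < k := hp
      refine ⟨?_, ?_, ?_⟩ <;> simp only [Set.mem_Iio] <;> omega
    have h3 : {t : T | ex t.1 < k} ⊆ ⋃ p ∈ {p : ℕ × ℕ × ℕ | ex p < k}, Set.range (Sigma.mk p) := by
      rintro ⟨p, j⟩ hp
      simp only [Set.mem_iUnion]
      exact ⟨p, hp, j, rfl⟩
    exact (h2.biUnion fun p _ => Set.finite_range _).subset h3
  exact h1.preimage (E.injective.injOn)

/-- the pieces of a set -/
def piece (A : Set ℕ) (k : ℕ) (r : ℕ) : Set ℕ :=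
  {n | n ∈ A ∧ k ≤ ex (E n).1 ∧ (E n).2.val % 2 ^ k = r}

theorem snd_val (t : T) : ((E (E.symm t)).2 : ℕ) = t.2 := by rw [Equiv.apply_symm_apply]

theorem dens_piece (A : Set ℕ) (k r : ℕ) (p : ℕ × ℕ × ℕ) :
    dens (piece A k r) p ≤ (1 / 2) ^ k := by
  classical
  by_cases hk : k ≤ ex p
  · unfold dens
    have h1 : cnt (piece A k r) p ≤ 2 ^ (ex p - k) := by
      unfold cnt
      have h2 : (2 ^ (ex p - k)) = (Finset.range (2 ^ (ex p - k))).card := by simp
      rw [h2]
      refine Finset.card_le_card_of_injOn (fun j => j.val / 2 ^ k) ?_ ?_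
      · intro j _
        simp only [Finset.coe_range, Set.mem_Iio]
        rw [Nat.div_lt_iff_lt_mul (by positivity), ← pow_add]
        have := j.2
        rwa [show ex p - k + k = ex p by omega]
      · intro j hj j' hj' hjj
        simp only [Finset.coe_filter, Finset.mem_univ, true_and, Set.mem_ofPred_eq, piece,
          Equiv.apply_symm_apply] at hj hj' hjj
        apply Fin.ext
        have h3 := Nat.div_add_mod j.val (2 ^ k)
        have h4 := Nat.div_add_mod j'.val (2 ^ k)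
        have h5 := hj.2.2
        have h6 := hj'.2.2
        rw [snd_val] at h5 h6
        simp only at h5 h6
        rw [h5] at h3
        rw [h6, ← hjj] at h4
        omega
    have h2 : (cnt (piece A k r) p : ℝ) ≤ 2 ^ (ex p - k) := by exact_mod_cast h1
    rw [div_le_iff₀ (by positivity), one_div_pow, ← mul_one_div, mul_comm (1 : ℝ), mul_comm]
    rw [show (2 : ℝ) ^ ex p = 2 ^ (ex p - k) * 2 ^ k by rw [← pow_add]; congr 1; omega]
    field_simp
    exact h2
  · have : dens (piece A k r) p = 0 := by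
      by_contra h
      obtain ⟨j, hj⟩ := (dens_pos_iff _ _).1 h
      have := hj.2.1
      rw [Equiv.apply_symm_apply] at this
      exact hk this
    rw [this]
    positivity

theorem pieces_union (A : Set ℕ) (k : ℕ) :
    A = (A ∩ small k) ∪ ⋃ r ∈ Finset.range (2 ^ k), piece A k r := by
  ext n
  simp only [Set.mem_union, Set.mem_inter_iff, Set.mem_iUnion, Finset.mem_range, piece, small,
    Set.mem_ofPred_eq, exists_prop]
  constructor
  · intro hn
    by_cases h : ex (E n).1 < k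
    · exact Or.inl ⟨hn, h⟩
    · right
      exact ⟨(E n).2.val % 2 ^ k, Nat.mod_lt _ (by positivity), hn, by omega, rfl⟩
  · rintro (h | ⟨r, _, h⟩)
    · exact h.1
    · exact h.1

/-! ### The Nikodym property -/

theorem bound_below {μ : ℕ → Set ℕ → ℝ} (hμ : ∀ n, IsMeasureOn (alg Flt) (μ n))
    (hb : ∀ A ∈ alg Flt, ∃ K, ∀ n, |μ n A| ≤ K) {A : Set ℕ} (hA : A ∈ Idl) :
    ∃ K, ∀ n, ∀ B ⊆ A, |μ n B| ≤ K := by
  have hmem : ∀ B : Set A, Subtype.val '' B ∈ alg Flt := fun B =>
    Idl_subset (Idl_mono hA (by rintro _ ⟨x, _, rfl⟩; exact x.2))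
  have hadm : ∀ n, H827R3.Adm (fun B : Set A => μ n (Subtype.val '' B)) := by
    intro n
    constructor
    · intro B C hBC
      change μ n (Subtype.val '' (B ∪ C)) = _
      rw [Set.image_union]
      refine (hμ n).add _ (hmem B) _ (hmem C) ?_
      exact (Set.disjoint_image_iff Subtype.val_injective).2 hBC
    · obtain ⟨K, hK⟩ := (hμ n).bdd
      exact ⟨K, fun B => hK.abs_le (hmem B)⟩
  obtain ⟨K, hK⟩ := H827R3.nik_set A (fun n B => μ n (Subtype.val '' B)) hadm
    (fun B => hb _ (hmem B))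
  refine ⟨K, fun n B hB => ?_⟩
  have := hK n (Subtype.val ⁻¹' B)
  simp only [Subtype.image_preimage_coe] at this
  rwa [Set.inter_eq_right.2 hB] at this

theorem nikodym : NikodymProperty (alg Flt) := by
  intro μ hμ hb
  have key : ∃ K, ∀ n, ∀ A ∈ Idl, |μ n A| ≤ K := by
    by_contra hcon
    push Not at hcon
    have hex : ∀ k : ℕ, ∃ n, ∃ B ∈ Idl, (∀ p, dens B p ≤ (1 / 2) ^ k) ∧ (k : ℝ) < |μ n B| := by
      intro k
      obtain ⟨c, hc⟩ := bound_below hμ hb (Idl_finite (small_finite k))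
      obtain ⟨n, A, hA, hnA⟩ := hcon (c + 2 ^ k * k)
      by_contra hno
      push Not at hno
      have hpI : ∀ r, piece A k r ∈ Idl := fun r => Idl_mono hA (fun n hn => hn.1)
      have h1 : ∀ r, |μ n (piece A k r)| ≤ k := fun r => hno n _ (hpI r) (dens_piece A k r)
      have h2 := add_finset (empty_mem_alg Flt) (union_mem_alg Flt) (hμ n).add
        (Finset.range (2 ^ k)) (piece A k) (fun r _ => Idl_subset (hpI r)) (by
          intro r _ r' _ hrr
          rw [Set.disjoint_left]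
          intro x hx hx'
          exact hrr (hx.2.2.symm.trans hx'.2.2))
      have h3 : μ n A = μ n (A ∩ small k) + ∑ r ∈ Finset.range (2 ^ k), μ n (piece A k r) := by
        rw [← h2.2, ← (hμ n).add _ _ _ h2.1]
        · rw [← pieces_union]
        · rw [Set.disjoint_left]
          rintro x ⟨_, hx⟩ hx'
          simp only [Set.mem_iUnion] at hx'
          obtain ⟨r, _, hr⟩ := hx'
          have h4 := hr.2.1
          have h5 : ex (E x).1 < k := hx
          omega
        · exact Idl_subset (Idl_mono hA Set.inter_subset_left)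
      have h4 : |∑ r ∈ Finset.range (2 ^ k), μ n (piece A k r)| ≤ 2 ^ k * k := by
        refine (Finset.abs_sum_le_sum_abs _ _).trans ?_
        refine (Finset.sum_le_sum fun r _ => h1 r).trans ?_
        simp
      have h5 := hc n (A ∩ small k) Set.inter_subset_right
      have h6 := abs_add_le (μ n (A ∩ small k)) (∑ r ∈ Finset.range (2 ^ k), μ n (piece A k r))
      rw [← h3] at h6
      linarith
    choose N B hB hd hk using hex
    obtain ⟨K, hK⟩ := bound_below hμ hb (Idl_iUnion hB hd)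
    obtain ⟨k, hkK⟩ := exists_nat_gt K
    have := hK (N k) (B k) (Set.subset_iUnion B k)
    linarith [hk k]
  obtain ⟨K, hK⟩ := key
  obtain ⟨K', hK'⟩ := hb Set.univ (Or.inl univ_mem)
  refine ⟨2 * (K' + K), fun n => ?_⟩
  refine varLE_of_bound (empty_mem_alg _) (union_mem_alg _) (hμ n).add ?_
  have hKK : 0 ≤ K' := (abs_nonneg _).trans (hK' n)
  rintro A (hA | hA)
  · have h1 := (hμ n).add A (Or.inl hA) Aᶜ (Or.inr (by rwa [compl_compl])) disjoint_compl_right
    rw [Set.union_compl_self] at h1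
    have h2 := hK n Aᶜ (mem_Flt.1 hA)
    have h3 := hK' n
    have h4 : μ n A = μ n Set.univ - μ n Aᶜ := by linarith
    rw [h4]
    have := abs_sub (μ n Set.univ) (μ n Aᶜ)
    linarith
  · have h2 := hK n A (by simpa using mem_Flt.1 hA)
    linarith

/-! ### The filter is Borel -/

theorem dens_compl (A : Set ℕ) (p : ℕ × ℕ × ℕ) [DecidablePred (· ∈ A)] :
    dens Aᶜ p = (∑ j : Fin (2 ^ ex p), if E.symm ⟨p, j⟩ ∈ A then (0 : ℝ) else 1) / 2 ^ ex p := by
  classical
  unfold dens cnt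
  congr 1
  rw [Finset.card_filter]
  push_cast
  refine Finset.sum_congr rfl fun j _ => ?_
  by_cases h : E.symm ⟨p, j⟩ ∈ A <;> simp [h]

theorem continuous_dens (p : ℕ × ℕ × ℕ) : Continuous (fun x : ℕ → Bool => dens (toSet x)ᶜ p) := by
  have h : (fun x : ℕ → Bool => dens (toSet x)ᶜ p) =
      fun x => (∑ j : Fin (2 ^ ex p), (if x (E.symm ⟨p, j⟩) = true then (0 : ℝ) else 1)) /
        2 ^ ex p := by
    funext x
    have : DecidablePred (· ∈ toSet x) := fun n => inferInstanceAs (Decidable (x n = true))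
    rw [dens_compl]
    congr 1
    refine Finset.sum_congr rfl fun j _ => ?_
    exact if_congr Iff.rfl rfl rfl
  rw [h]
  refine Continuous.div_const (continuous_finsetSum _ fun j _ => ?_) _
  exact (continuous_of_discreteTopology (f := fun b : Bool => if b = true then (0 : ℝ) else 1)).comp
    (continuous_apply _)

theorem mem_Idl_iff (A : Set ℕ) : A ∈ Idl ↔
    (∀ a b m : ℕ, ∃ N, ∀ i ≥ N, dens A (a, b, i) ≤ 1 / ((m : ℝ) + 1)) ∧
    ∀ m : ℕ, ∃ N, ∀ a ≥ N, ∃ N', ∀ b ≥ N', ∀ i, dens A (a, b, i) ≤ 1 / ((m : ℝ) + 1) := by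
  constructor
  · rintro ⟨h1, h2⟩
    refine ⟨fun a b m => ?_, fun m => ?_⟩
    · have h3 : (0 : ℝ) < 1 / ((m : ℝ) + 1) := by positivity
      exact eventually_atTop.1 ((h1 a b).eventually (ge_mem_nhds h3))
    · have h3 := h2 (1 / ((m : ℝ) + 1)) (by positivity)
      obtain ⟨N, hN⟩ := eventually_atTop.1 h3
      exact ⟨N, fun a ha => eventually_atTop.1 (hN a ha)⟩
  · rintro ⟨h1, h2⟩
    refine ⟨fun a b => ?_, fun ε hε => ?_⟩
    · rw [Metric.tendsto_atTop]
      intro ε hε
      obtain ⟨m, hm⟩ := exists_nat_one_div_lt hε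
      obtain ⟨N, hN⟩ := h1 a b m
      refine ⟨N, fun i hi => ?_⟩
      rw [Real.dist_eq, sub_zero, abs_of_nonneg (dens_nonneg _ _)]
      exact (hN i hi).trans_lt hm
    · obtain ⟨m, hm⟩ := exists_nat_one_div_lt hε
      obtain ⟨N, hN⟩ := h2 m
      filter_upwards [eventually_ge_atTop N] with a ha
      obtain ⟨N', hN'⟩ := hN a ha
      filter_upwards [eventually_ge_atTop N'] with b hb i
      exact (hN' b hb i).trans hm.le

theorem ms_forall {α : Type} {ι : Sort*} [MeasurableSpace α] [Countable ι] {p : ι → α → Prop}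
    (h : ∀ i, MeasurableSet {x | p i x}) : MeasurableSet {x | ∀ i, p i x} := by
  have : {x | ∀ i, p i x} = ⋂ i, {x | p i x} := by
    ext
    simp
  rw [this]
  exact MeasurableSet.iInter h

theorem ms_exists {α : Type} {ι : Sort*} [MeasurableSpace α] [Countable ι] {p : ι → α → Prop}
    (h : ∀ i, MeasurableSet {x | p i x}) : MeasurableSet {x | ∃ i, p i x} := by
  have : {x | ∃ i, p i x} = ⋃ i, {x | p i x} := by
    ext
    simp
  rw [this]
  exact MeasurableSet.iUnion h

theorem borel_Flt : IsBorelFamily {A | A ∈ Flt} := by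
  have hcl : ∀ (p : ℕ × ℕ × ℕ) (c : ℝ),
      @MeasurableSet (ℕ → Bool) (borel (ℕ → Bool)) {x | dens (toSet x)ᶜ p ≤ c} := by
    intro p c
    let _ : MeasurableSpace (ℕ → Bool) := borel _
    have : BorelSpace (ℕ → Bool) := ⟨rfl⟩
    exact (isClosed_le (continuous_dens p) continuous_const).measurableSet
  unfold IsBorelFamily
  let _ : MeasurableSpace (ℕ → Bool) := borel _
  have : {x : ℕ → Bool | toSet x ∈ {A | A ∈ Flt}} =
      {x | (∀ a b m : ℕ, ∃ N, ∀ i, N ≤ i → dens (toSet x)ᶜ (a, b, i) ≤ 1 / ((m : ℝ) + 1)) ∧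
        ∀ m : ℕ, ∃ N, ∀ a, N ≤ a → ∃ N', ∀ b, N' ≤ b → ∀ i,
          dens (toSet x)ᶜ (a, b, i) ≤ 1 / ((m : ℝ) + 1)} := by
    ext x
    exact mem_Idl_iff _
  rw [this]
  refine MeasurableSet.inter ?_ ?_
  · exact ms_forall fun a => ms_forall fun b => ms_forall fun m => ms_exists fun N =>
      ms_forall fun i => ms_forall fun _ => hcl _ _
  · exact ms_forall fun m => ms_exists fun N => ms_forall fun a => ms_forall fun _ =>
      ms_exists fun N' => ms_forall fun b => ms_forall fun _ => ms_forall fun i => hcl _ _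

/-! ### The filter is not `F_σδ` -/

/-- `Fin × Fin` is not `F_σδ`. -/
theorem not_fsd (C : ℕ → ℕ → Set (ℕ × ℕ → Bool)) (hC : ∀ i j, IsClosed (C i j))
    (h : ∀ y : ℕ × ℕ → Bool, (∀ᶠ a in atTop, ∀ᶠ b in atTop, y (a, b) = false) ↔
      ∀ i, ∃ j, y ∈ C i j) : False := by
  classical
  have hstep : ∀ (i : ℕ) (q : ℕ × (ℕ × ℕ → Bool)), ∃ q' : ℕ × (ℕ × ℕ → Bool), q.1 < q'.1 ∧
      (∀ a < q.1, ∀ b, q'.2 (a, b) = q.2 (a, b)) ∧ (∀ b, q'.2 (q'.1 - 1, b) = true) ∧
      ∀ y : ℕ × ℕ → Bool, (∀ a < q'.1, ∀ b, y (a, b) = q'.2 (a, b)) → ∃ j, y ∈ C i j := by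
    rintro i ⟨m, z⟩
    let eqv : Finset ℕ ≃ ℕ := Denumerable.eqv (Finset ℕ)
    let g : ℕ → Finset ℕ := fun n => eqv.symm n
    let Φ : (ℕ → ℕ) → (ℕ × ℕ → Bool) := fun f p =>
      if p.1 < m then z p else decide (p.2 ∈ g (f (p.1 - m)))
    have hΦc : Continuous Φ := by
      refine continuous_pi fun p => ?_
      by_cases hp : p.1 < m
      · simp only [Φ, hp, if_true]
        exact continuous_const
      · simp only [Φ, hp, if_false]
        exact (continuous_of_discreteTopology (f := fun n : ℕ => decide (p.2 ∈ g n))).comp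
          (continuous_apply _)
    have hΦ : ∀ f, ∃ j, Φ f ∈ C i j := by
      intro f
      refine (h (Φ f)).1 ?_ i
      filter_upwards [eventually_ge_atTop m] with a ha
      obtain ⟨N, hN⟩ := (g (f (a - m))).finite_toSet.bddAbove
      filter_upwards [eventually_gt_atTop N] with b hb
      simp only [Φ, not_lt.2 ha, if_false, decide_eq_false_iff_not]
      intro hmem
      exact absurd (hN hmem) (not_le.2 hb)
    have hB : BaireSpace (ℕ → ℕ) := by
      let _ := TopologicalSpace.upgradeIsCompletelyMetrizable (ℕ → ℕ)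
      infer_instance
    obtain ⟨j, hj⟩ := nonempty_interior_of_iUnion_of_closed (f := fun j => Φ ⁻¹' (C i j))
      (fun j => (hC i j).preimage hΦc) (by
        ext f
        simp only [Set.mem_iUnion, Set.mem_preimage, Set.mem_univ, iff_true]
        exact hΦ f)
    obtain ⟨f₀, hf₀⟩ := hj
    obtain ⟨u, hu, hsub⟩ := (isOpen_pi_iff.1 isOpen_interior) f₀ hf₀
    obtain ⟨N, hN⟩ := u.finite_toSet.bddAbove
    obtain ⟨hu, hsub⟩ : (∀ a ∈ u, IsOpen (hu a) ∧ f₀ a ∈ hu a) ∧
        (u : Set ℕ).pi hu ⊆ interior (Φ ⁻¹' C i j) := hsub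
    have hcone : ∀ f : ℕ → ℕ, (∀ a ≤ N, f a = f₀ a) → Φ f ∈ C i j := by
      intro f hf
      have hmem : f ∈ interior (Φ ⁻¹' C i j) := by
        apply hsub
        intro a ha
        rw [hf a (hN ha)]
        exact (hu a ha).2
      exact interior_subset (s := Φ ⁻¹' C i j) hmem
    have hcl : ∀ y : ℕ × ℕ → Bool, (∀ a < m + N + 1, ∀ b, y (a, b) = Φ f₀ (a, b)) → y ∈ C i j := by
      intro y hy
      let f : ℕ → ℕ → ℕ := fun n a => if a ≤ N then f₀ a else
        eqv ((Finset.range n).filter (fun b => y (a + m, b) = true))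
      have hf : ∀ n, Φ (f n) ∈ C i j := fun n => hcone _ fun a ha => by simp [f, ha]
      refine (hC i j).mem_of_tendsto (b := atTop) (f := fun n => Φ (f n)) ?_
        (Eventually.of_forall hf)
      rw [tendsto_pi_nhds]
      rintro ⟨a, b⟩
      refine tendsto_const_nhds.congr' ?_
      filter_upwards [eventually_gt_atTop b] with n hn
      by_cases ha : a < m + N + 1
      · rw [hy a ha b]
        by_cases ham : a < m
        · simp [Φ, ham]
        · have h1 : a - m ≤ N := by omega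
          simp [Φ, ham, f, h1]
      · have h1 : ¬ a < m := by omega
        have h2 : ¬ a - m ≤ N := by omega
        have h3 : a - m + m = a := by omega
        have hg : ∀ s : Finset ℕ, g (eqv s) = s := fun s => eqv.symm_apply_apply s
        simp only [Φ, h1, if_false, f, h2, hg, h3, Finset.mem_filter, Finset.mem_range, hn,
          true_and]
        cases y (a, b) <;> simp
    refine ⟨(m + N + 2, fun p => if p.1 = m + N + 1 then true else Φ f₀ p), by simp only; omega,
      ?_, ?_, ?_⟩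
    · intro a ha b
      simp only at ha
      have h1 : a ≠ m + N + 1 := by omega
      simp [h1, Φ, ha]
    · intro b
      simp
    · intro y hy
      refine ⟨j, hcl y fun a ha b => ?_⟩
      rw [hy a (by simp only; omega) b]
      have h1 : a ≠ m + N + 1 := by omega
      simp [h1]
  choose nxt h1 h2 h3 h4 using hstep
  let q : ℕ → ℕ × (ℕ × ℕ → Bool) := fun n => Nat.rec (0, fun _ => false) (fun i q => nxt i q) n
  have hq : ∀ n, q (n + 1) = nxt n (q n) := fun n => rfl
  have hm : ∀ n, n ≤ (q n).1 := by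
    intro n
    induction n with
    | zero => exact Nat.zero_le _
    | succ n ih =>
      have := h1 n (q n)
      rw [hq]
      omega
  have hmono : ∀ n k, (q n).1 ≤ (q (n + k)).1 := by
    intro n k
    induction k with
    | zero => exact le_rfl
    | succ k ih =>
      have := h1 (n + k) (q (n + k))
      rw [← add_assoc, hq]
      omega
  have hagree : ∀ n k, ∀ a < (q n).1, ∀ b, (q (n + k)).2 (a, b) = (q n).2 (a, b) := by
    intro n k
    induction k with
    | zero => intro a _ b; rfl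
    | succ k ih =>
      intro a ha b
      rw [← add_assoc, hq, h2 (n + k) (q (n + k)) a (lt_of_lt_of_le ha (hmono n k)) b]
      exact ih a ha b
  let y : ℕ × ℕ → Bool := fun p => (q (p.1 + 1)).2 p
  have hy : ∀ n, ∀ a < (q n).1, ∀ b, y (a, b) = (q n).2 (a, b) := by
    intro n a ha b
    change (q (a + 1)).2 (a, b) = _
    rcases le_total n (a + 1) with hle | hle
    · obtain ⟨k, hk⟩ := Nat.exists_eq_add_of_le hle
      rw [hk]
      exact hagree n k a ha b
    · obtain ⟨k, hk⟩ := Nat.exists_eq_add_of_le hle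
      rw [hk]
      exact (hagree (a + 1) k a (hm (a + 1)) b).symm
  have hyC : ∀ i, ∃ j, y ∈ C i j := by
    intro i
    refine h4 i (q i) y ?_
    rw [← hq]
    exact hy (i + 1)
  obtain ⟨N, hN⟩ := eventually_atTop.1 ((h y).2 hyC)
  have h5 := hm (N + 1)
  have h6 := h1 N (q N)
  rw [← hq] at h6
  obtain ⟨N', hN'⟩ := eventually_atTop.1 (hN ((q (N + 1)).1 - 1) (by omega))
  have h7 := hN' N' le_rfl
  rw [hy (N + 1) _ (by omega), hq, h3 N (q N) N'] at h7
  exact absurd h7 (by simp)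

theorem not_fsigmadelta : ¬ IsFsigmadelta {A | A ∈ Flt} := by
  classical
  rintro ⟨C, hC, h⟩
  let Φ : (ℕ × ℕ → Bool) → (ℕ → Bool) := fun y n =>
    if (E n).1.2.2 = 0 then !(y ((E n).1.1, (E n).1.2.1)) else true
  have hΦc : Continuous Φ := by
    refine continuous_pi fun n => ?_
    by_cases hn : (E n).1.2.2 = 0
    · simp only [Φ, hn, if_true]
      exact (continuous_of_discreteTopology (f := fun b : Bool => !b)).comp (continuous_apply _)
    · simp only [Φ, hn, if_false]
      exact continuous_const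
  have hmem : ∀ y n, n ∈ (toSet (Φ y))ᶜ ↔ (E n).1.2.2 = 0 ∧ y ((E n).1.1, (E n).1.2.1) = true := by
    intro y n
    change ¬ (Φ y n = true) ↔ _
    by_cases hn : (E n).1.2.2 = 0
    · simp [Φ, hn]
    · simp [Φ, hn]
  have hd0 : ∀ y a b i, i ≠ 0 → dens (toSet (Φ y))ᶜ (a, b, i) = 0 := by
    intro y a b i hi
    by_contra hne
    obtain ⟨j, hj⟩ := (dens_pos_iff _ _).1 hne
    rw [hmem] at hj
    rw [Equiv.apply_symm_apply] at hj
    exact hi hj.1
  have hd1 : ∀ y a b, y (a, b) = true → dens (toSet (Φ y))ᶜ (a, b, 0) = 1 := by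
    intro y a b hy
    refine dens_one fun j => ?_
    rw [hmem, Equiv.apply_symm_apply]
    exact ⟨rfl, hy⟩
  have hd2 : ∀ y a b, y (a, b) = false → dens (toSet (Φ y))ᶜ (a, b, 0) = 0 := by
    intro y a b hy
    by_contra hne
    obtain ⟨j, hj⟩ := (dens_pos_iff _ _).1 hne
    rw [hmem, Equiv.apply_symm_apply] at hj
    have := hj.2
    simp only [hy] at this
    exact absurd this (by simp)
  refine not_fsd (fun i j => Φ ⁻¹' (C i j)) (fun i j => (hC i j).preimage hΦc) fun y => ?_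
  have h1 : (∀ i, ∃ j, y ∈ Φ ⁻¹' (C i j)) ↔ (toSet (Φ y))ᶜ ∈ Idl := by
    have h2 : Φ y ∈ {x | toSet x ∈ {A | A ∈ Flt}} ↔ Φ y ∈ ⋂ i, ⋃ j, C i j := by rw [h]
    rw [Set.mem_iInter] at h2
    simp only [Set.mem_iUnion] at h2
    exact h2.symm
  rw [h1]
  constructor
  · intro hy
    refine ⟨fun a b => ?_, fun ε hε => ?_⟩
    · refine tendsto_const_nhds.congr' ?_
      filter_upwards [eventually_gt_atTop 0] with i hi
      exact (hd0 y a b i hi.ne').symm
    · filter_upwards [hy] with a ha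
      filter_upwards [ha] with b hb i
      rcases Nat.eq_zero_or_pos i with rfl | hi
      · rw [hd2 y a b hb]
        exact hε.le
      · rw [hd0 y a b i hi.ne']
        exact hε.le
  · rintro ⟨_, hI⟩
    filter_upwards [hI (1 / 2) (by norm_num)] with a ha
    filter_upwards [ha] with b hb
    by_contra hne
    have hy : y (a, b) = true := by simpa using hne
    have := hb 0
    rw [hd1 y a b hy] at this
    norm_num at this

/-- There is a Borel filter on `ℕ` (free, in the sense of the problem), which is not an `F_σδ`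
subset of the Cantor space, such that the algebra `A_F` has the Nikodym property. -/
theorem result : ∃ F : Filter ℕ, IsFree F ∧ IsBorelFamily {A | A ∈ F} ∧
    ¬ IsFsigmadelta {A | A ∈ F} ∧ NikodymProperty (alg F) :=
  ⟨Flt, free, borel_Flt, not_fsigmadelta, nikodym⟩

end Pool.Agent.Results.MP_07734d_lc.BeyondFsigmadelta
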